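import Pool.Agent.Helper41.DragonH

set_option autoImplicit false
open Filter Topology
open Pool.Agent.Helper41.Dragon

namespace Pool.Agent.Results.MP_a671ab_an.GoldenAngle

/-- At the folding angle `θ = 3π/5` (so `α = (π - θ)/2 = π/5`, and `2 cos α` is the golden
ratio) the coordinate functions of the polygonal stages of the generalized dragon curve converge
uniformly on `[0, 1]`, and the Hausdorff dimension of each of the two limit graphs is strictly
smaller than `1 - log (cos α) / log 2`. -/
theorem result :
    3 * Real.pi / 5 ∈ Set.Ioo (Real.pi / 3) (5 * Real.pi / 3) ∧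
    ∃ x y : ℝ → ℝ,
      TendstoUniformlyOn (stage Real.cos ((Real.pi - 3 * Real.pi / 5) / 2)) x atTop
        (Set.Icc 0 1) ∧
      TendstoUniformlyOn (stage Real.sin ((Real.pi - 3 * Real.pi / 5) / 2)) y atTop
        (Set.Icc 0 1) ∧
      dimH (graphOn x) < ENNReal.ofReal
        (1 - Real.log (Real.cos ((Real.pi - 3 * Real.pi / 5) / 2)) / Real.log 2) ∧
      dimH (graphOn y) < ENNReal.ofReal
        (1 - Real.log (Real.cos ((Real.pi - 3 * Real.pi / 5) / 2)) / Real.log 2) := by
  have hpi := Real.pi_pos
  have hal : (Real.pi - 3 * Real.pi / 5) / 2 = al := by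
    unfold al
    ring
  rw [hal, value_eq]
  refine ⟨⟨by linarith, by linarith⟩, lim cosCoord, lim sinCoord,
    tendstoUniformly_lim cosCoord, tendstoUniformly_lim sinCoord,
    dim_graph cosCoord heavyCos, dim_graph sinCoord heavySin⟩

end Pool.Agent.Results.MP_a671ab_an.GoldenAngle
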